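import Pool.Agent.X3.RWSquare

/-!
MP_432bca_pr, Q1: the matrix `A` is square and non-singular, for every `N` and every choice of
`X_1, …, X_N`: there is a bijection of the index pairs `(j, c)` with the rows, the rows are linearly
independent, and for every such bijection `e` the determinant of the square matrix is not zero.
-/

set_option autoImplicit false

namespace Pool.Agent.Results.MP_432bca_pr.RowIndependence

open Pool.Agent.X3.RW

theorem result :
    ∀ (N : ℕ) (w : Walk N),
      Nonempty (w.Col ≃ Option w.Zero) ∧ LinearIndependent ℂ w.row ∧
        ∀ e : w.Col ≃ Option w.Zero, (Matrix.of fun i c => w.row (e i) c).det ≠ 0 :=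
  fun _ w => ⟨square w, rows_independent w, det_ne_zero w⟩

end Pool.Agent.Results.MP_432bca_pr.RowIndependence
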